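import Pool.Agent.Work.MP_f00281_mq.Period

/-!
# Verification of a finite misere quotient
-/

namespace Pool.Agent.Work.MP_f00281_mq

open Game

/-- The sum along a word. -/
def wsum (g : ℕ → Game) : List ℕ → Game
  | [] => zero
  | [i] => g i
  | i :: j :: l => add (g i) (wsum g (j :: l))

/-- The sums of generators. -/
inductive Rel (g : ℕ → Game) (k : ℕ) : Game → List ℕ → Prop
  | zero : Rel g k Game.zero []
  | gen (i : ℕ) (h : i < k) : Rel g k (g i) [i]
  | add {G H : Game} {u v : List ℕ} (h1 : Rel g k G u) (h2 : Rel g k H v) :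
      Rel g k (Game.add G H) (u ++ v)

theorem rel_wsum {g : ℕ → Game} {k : ℕ} : ∀ w : List ℕ, (∀ i ∈ w, i < k) →
    Rel g k (wsum g w) w
  | [], _ => Rel.zero
  | [i], h => Rel.gen i (h i (by simp))
  | i :: j :: l, h => by
    have h1 : Rel g k (wsum g (j :: l)) (j :: l) :=
      rel_wsum (j :: l) (fun x hx => h x (List.mem_cons_of_mem _ hx))
    exact Rel.add (Rel.gen i (h i (by simp))) h1

theorem rel_lt {g : ℕ → Game} {k : ℕ} {G : Game} {l : List ℕ} (h : Rel g k G l) :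
    ∀ i ∈ l, i < k := by
  induction h with
  | zero => simp
  | gen i h => simpa using h
  | add _ _ ih1 ih2 =>
    intro i hi
    rcases List.mem_append.1 hi with h | h
    · exact ih1 i h
    · exact ih2 i h

/-- The options of a word. -/
def optL (optw : ℕ → List (List ℕ)) : List ℕ → List (List ℕ)
  | [] => []
  | i :: u => (optw i).map (fun o => o ++ u) ++ (optL optw u).map (fun w => i :: w)

theorem optL_append (optw : ℕ → List (List ℕ)) (u v : List ℕ) :
    optL optw (u ++ v) = (optL optw u).map (fun w => w ++ v) ++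
      (optL optw v).map (fun w => u ++ w) := by
  induction u with
  | nil => simp [optL]
  | cons i u ih =>
    simp only [List.cons_append, optL, ih, List.map_append, List.map_map, List.append_assoc,
      Function.comp_def]

/-- The set of games. -/
def AA (g : ℕ → Game) (k : ℕ) : Set Game := {G | ∃ l, Rel g k G l}

section

variable {g : ℕ → Game} {k : ℕ} {optw : ℕ → List (List ℕ)}

theorem rel_opts (hg : ∀ i < k, opts (g i) = (optw i).map (wsum g))
    (hlt : ∀ i < k, ∀ o ∈ optw i, ∀ j ∈ o, j < k) {G : Game} {l : List ℕ} (h : Rel g k G l) :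
    (∀ x ∈ opts G, ∃ w ∈ optL optw l, Rel g k x w) ∧
      (∀ w ∈ optL optw l, ∃ x ∈ opts G, Rel g k x w) := by
  induction h with
  | zero => simp [Game.zero, opts, optL]
  | gen i hi =>
    rw [hg i hi]
    constructor
    · intro x hx
      obtain ⟨o, ho, rfl⟩ := List.mem_map.1 hx
      refine ⟨o, ?_, rel_wsum o (hlt i hi o ho)⟩
      simp only [optL, List.append_nil, List.map_nil]
      simpa using ho
    · intro w hw
      simp only [optL, List.append_nil, List.map_nil, List.map_id'] at hw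
      exact ⟨wsum g w, List.mem_map.2 ⟨w, hw, rfl⟩, rel_wsum w (hlt i hi w hw)⟩
  | @add G H u v h1 h2 ih1 ih2 =>
    rw [optL_append]
    constructor
    · intro x hx
      rcases mem_opts_add.1 hx with ⟨y, hy, rfl⟩ | ⟨y, hy, rfl⟩
      · obtain ⟨w, hw, hr⟩ := ih1.1 y hy
        exact ⟨w ++ v, List.mem_append.2 (Or.inl (List.mem_map.2 ⟨w, hw, rfl⟩)), Rel.add hr h2⟩
      · obtain ⟨w, hw, hr⟩ := ih2.1 y hy
        exact ⟨u ++ w, List.mem_append.2 (Or.inr (List.mem_map.2 ⟨w, hw, rfl⟩)), Rel.add h1 hr⟩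
    · intro w hw
      rcases List.mem_append.1 hw with h | h
      · obtain ⟨w', hw', rfl⟩ := List.mem_map.1 h
        obtain ⟨x, hx, hr⟩ := ih1.2 w' hw'
        exact ⟨add x H, mem_opts_add.2 (Or.inl ⟨x, hx, rfl⟩), Rel.add hr h2⟩
      · obtain ⟨w', hw', rfl⟩ := List.mem_map.1 h
        obtain ⟨x, hx, hr⟩ := ih2.2 w' hw'
        exact ⟨add G x, mem_opts_add.2 (Or.inr ⟨x, hx, rfl⟩), Rel.add h1 hr⟩

theorem closed_AA (hg : ∀ i < k, opts (g i) = (optw i).map (wsum g))
    (hlt : ∀ i < k, ∀ o ∈ optw i, ∀ j ∈ o, j < k) : Closed (AA g k) where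
  zero_mem := ⟨[], Rel.zero⟩
  add_mem := fun _ ⟨_, h1⟩ _ ⟨_, h2⟩ => ⟨_, Rel.add h1 h2⟩
  opt_mem := fun _ ⟨_, h⟩ x hx => by
    obtain ⟨w, _, hw⟩ := (rel_opts hg hlt h).1 x hx
    exact ⟨w, hw⟩

/-- The action of a word. -/
def Tw (T : ℕ → ℕ → ℕ) : List ℕ → ℕ → ℕ
  | [], s => s
  | i :: l, s => T i (Tw T l s)

theorem Tw_append (T : ℕ → ℕ → ℕ) (u v : List ℕ) (s : ℕ) :
    Tw T (u ++ v) s = Tw T u (Tw T v s) := by
  induction u with
  | nil => rfl
  | cons i u ih => simp only [List.cons_append, Tw, ih]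

/-- The image of a set of states. -/
def img (T : ℕ → ℕ → ℕ) (i O : ℕ) : ℕ → ℕ
  | 0 => 0
  | n + 1 => if O.testBit n then (2 ^ T i n) ||| img T i O n else img T i O n

/-- The states of the options of a generator added to a state. -/
def om (T : ℕ → ℕ → ℕ) (s : ℕ) : List (List ℕ) → ℕ
  | [] => 0
  | o :: os => (2 ^ Tw T o s) ||| om T s os

theorem testBit_img (T : ℕ → ℕ → ℕ) (i O n t : ℕ) :
    (img T i O n).testBit t = true ↔ ∃ s < n, O.testBit s = true ∧ T i s = t := by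
  induction n with
  | zero => simp [img]
  | succ n ih =>
    rw [img]
    split_ifs with h
    · rw [Nat.testBit_or, Bool.or_eq_true, ih, Nat.testBit_two_pow, decide_eq_true_eq]
      constructor
      · rintro (h1 | ⟨s, hs, h2, h3⟩)
        · exact ⟨n, by omega, h, h1⟩
        · exact ⟨s, by omega, h2, h3⟩
      · rintro ⟨s, hs, h2, h3⟩
        rcases Nat.lt_succ_iff_lt_or_eq.1 hs with h4 | h4
        · exact Or.inr ⟨s, h4, h2, h3⟩
        · subst h4
          exact Or.inl h3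
    · rw [ih]
      constructor
      · rintro ⟨s, hs, h2, h3⟩
        exact ⟨s, by omega, h2, h3⟩
      · rintro ⟨s, hs, h2, h3⟩
        rcases Nat.lt_succ_iff_lt_or_eq.1 hs with h4 | h4
        · exact ⟨s, h4, h2, h3⟩
        · subst h4
          exact absurd h2 h

theorem testBit_om (T : ℕ → ℕ → ℕ) (s : ℕ) (os : List (List ℕ)) (t : ℕ) :
    (om T s os).testBit t = true ↔ ∃ o ∈ os, Tw T o s = t := by
  induction os with
  | nil => simp [om]
  | cons o os ih =>
    rw [om, Nat.testBit_or, Bool.or_eq_true, ih, Nat.testBit_two_pow, decide_eq_true_eq]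
    simp

theorem eq_zero_iff_testBit (n : ℕ) : n = 0 ↔ ∀ t, n.testBit t = false := by
  constructor
  · rintro rfl t
    simp
  · intro h
    exact Nat.zero_of_testBit_eq_false h

/-- The certificate. -/
structure Cert (k ns np : ℕ) (optw : ℕ → List (List ℕ)) (T : ℕ → ℕ → ℕ) (Pm : ℕ)
    (D : ℕ → ℕ → ℕ) (st O : ℕ → ℕ) : Prop where
  np_pos : 0 < np
  st0 : st 0 = 0
  O0 : O 0 = 0
  hD : ∀ q < np, ∀ i < k, D q i < np ∧ st (D q i) = T i (st q) ∧
    O (D q i) = img T i (O q) ns ||| om T (st q) (optw i)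
  hP : ∀ q < np, (Pm.testBit (st q) = true ↔ (O q ≠ 0 ∧ (O q &&& Pm) = 0))
  hst : ∀ q < np, st q < ns
  hO : ∀ q < np, O q < 2 ^ ns

variable {ns np : ℕ} {T : ℕ → ℕ → ℕ} {Pm : ℕ} {D : ℕ → ℕ → ℕ} {st O : ℕ → ℕ}

/-- The pair automaton. -/
def run (D : ℕ → ℕ → ℕ) : List ℕ → ℕ
  | [] => 0
  | i :: l => D (run D l) i

theorem run_spec (C : Cert k ns np optw T Pm D st O) : ∀ l : List ℕ, (∀ i ∈ l, i < k) →
    run D l < np ∧ st (run D l) = Tw T l 0 ∧
      ∀ t, (O (run D l)).testBit t = true ↔ ∃ w ∈ optL optw l, Tw T w 0 = t := by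
  intro l
  induction l with
  | nil =>
    intro _
    refine ⟨C.np_pos, C.st0, fun t => ?_⟩
    simp [run, C.O0, optL]
  | cons i l ih =>
    intro h
    obtain ⟨h1, h2, h3⟩ := ih (fun j hj => h j (by simp [hj]))
    obtain ⟨h4, h5, h6⟩ := C.hD _ h1 i (h i (by simp))
    refine ⟨h4, ?_, fun t => ?_⟩
    · simp only [run, Tw, h5, h2]
    · simp only [run]
      rw [h6, Nat.testBit_or, Bool.or_eq_true, testBit_img, testBit_om, h2]
      simp only [optL, List.mem_append, List.mem_map]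
      constructor
      · rintro (⟨s, hs, h7, rfl⟩ | ⟨o, ho, rfl⟩)
        · obtain ⟨w, hw, rfl⟩ := (h3 s).1 h7
          exact ⟨i :: w, Or.inr ⟨w, hw, rfl⟩, rfl⟩
        · exact ⟨o ++ l, Or.inl ⟨o, ho, rfl⟩, Tw_append _ _ _ _⟩
      · rintro ⟨w, ⟨o, ho, rfl⟩ | ⟨w', hw', rfl⟩, rfl⟩
        · exact Or.inr ⟨o, ho, (Tw_append _ _ _ _).symm⟩
        · refine Or.inl ⟨Tw T w' 0, ?_, (h3 _).2 ⟨w', hw', rfl⟩, rfl⟩
          have h8 : (O (run D l)).testBit (Tw T w' 0) = true := (h3 _).2 ⟨w', hw', rfl⟩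
          by_contra hge
          rw [Nat.testBit_lt_two_pow (lt_of_lt_of_le (C.hO _ h1)
            (Nat.pow_le_pow_right (by norm_num) (not_lt.1 hge)))] at h8
          exact absurd h8 (by simp)

theorem outcome (C : Cert k ns np optw T Pm D st O)
    (hg : ∀ i < k, opts (g i) = (optw i).map (wsum g))
    (hlt : ∀ i < k, ∀ o ∈ optw i, ∀ j ∈ o, j < k) : ∀ (n : ℕ) (G : Game) (l : List ℕ),
    sizeOf G ≤ n → Rel g k G l → (IsP G ↔ Pm.testBit (Tw T l 0) = true) := by
  intro n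
  induction n with
  | zero =>
    intro G l h
    exfalso
    have := sizeOf_pos' G
    omega
  | succ n ih =>
    intro G l hn h
    obtain ⟨h1, h2⟩ := rel_opts hg hlt h
    obtain ⟨h3, h4, h5⟩ := run_spec C l (rel_lt h)
    rw [← h4, C.hP _ h3, isP_iff', eq_zero_iff_testBit, ne_eq, eq_zero_iff_testBit]
    constructor
    · rintro ⟨⟨x, hx⟩, hno⟩
      constructor
      · intro h6
        obtain ⟨w, hw, _⟩ := h1 x hx
        have := (h5 _).2 ⟨w, hw, rfl⟩
        rw [h6] at this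
        exact absurd this (by simp)
      · intro t
        rw [Nat.testBit_and, Bool.and_eq_false_iff]
        by_contra h6
        push Not at h6
        obtain ⟨h7, h8⟩ := h6
        rw [ne_eq, Bool.not_eq_false] at h7 h8
        obtain ⟨w, hw, rfl⟩ := (h5 t).1 h7
        obtain ⟨x', hx', hr⟩ := h2 w hw
        have := sizeOf_lt hx'
        exact hno x' hx' ((ih x' w (by omega) hr).2 h8)
    · rintro ⟨hne, hand⟩
      constructor
      · push Not at hne
        obtain ⟨t, ht⟩ := hne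
        rw [ne_eq, Bool.not_eq_false] at ht
        obtain ⟨w, hw, _⟩ := (h5 t).1 ht
        obtain ⟨x, hx, _⟩ := h2 w hw
        exact ⟨x, hx⟩
      · intro x hx hP
        obtain ⟨w, hw, hr⟩ := h1 x hx
        have := sizeOf_lt hx
        have h6 := (ih x w (by omega) hr).1 hP
        have h7 := (h5 _).2 ⟨w, hw, rfl⟩
        have h8 := hand (Tw T w 0)
        rw [Nat.testBit_and, h6, h7] at h8
        exact absurd h8 (by simp)

/-- The second certificate: commutation, reachability, separation. -/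
structure Cert2 (k ns : ℕ) (T : ℕ → ℕ → ℕ) (Pm : ℕ) (acc ctx : List (List ℕ)) : Prop where
  hT : ∀ i < k, ∀ s < ns, T i s < ns
  comm : ∀ i < k, ∀ j < k, ∀ s < ns, T i (T j s) = T j (T i s)
  ns_pos : 0 < ns
  hacc : ∀ s < ns, ∃ w ∈ acc, Tw T w 0 = s
  hacck : ∀ w ∈ acc, ∀ i ∈ w, i < k
  hctxk : ∀ w ∈ ctx, ∀ i ∈ w, i < k
  hsep : ∀ s < ns, ∀ t < s, ∃ w ∈ ctx, Pm.testBit (Tw T w s) ≠ Pm.testBit (Tw T w t)

variable {acc ctx : List (List ℕ)}

theorem Tw_lt (C : Cert2 k ns T Pm acc ctx) : ∀ l : List ℕ, (∀ i ∈ l, i < k) → ∀ s < ns,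
    Tw T l s < ns := by
  intro l
  induction l with
  | nil => exact fun _ s hs => hs
  | cons i l ih =>
    intro h s hs
    exact C.hT i (h i (by simp)) _ (ih (fun j hj => h j (by simp [hj])) s hs)

theorem T_comm (C : Cert2 k ns T Pm acc ctx) (i : ℕ) (hi : i < k) : ∀ l : List ℕ,
    (∀ j ∈ l, j < k) → ∀ s < ns, T i (Tw T l s) = Tw T l (T i s) := by
  intro l
  induction l with
  | nil => exact fun _ s _ => rfl
  | cons j l ih =>
    intro h s hs
    have hl : ∀ x ∈ l, x < k := fun x hx => h x (by simp [hx])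
    simp only [Tw]
    rw [C.comm i hi j (h j (by simp)) _ (Tw_lt C l hl s hs), ih hl s hs]

theorem Tw_comm (C : Cert2 k ns T Pm acc ctx) : ∀ u : List ℕ, (∀ i ∈ u, i < k) → ∀ v : List ℕ,
    (∀ j ∈ v, j < k) → ∀ s < ns, Tw T u (Tw T v s) = Tw T v (Tw T u s) := by
  intro u
  induction u with
  | nil => exact fun _ v _ s _ => rfl
  | cons i u ih =>
    intro hu v hv s hs
    have hu' : ∀ x ∈ u, x < k := fun x hx => hu x (by simp [hx])
    simp only [Tw]
    rw [ih hu' v hv s hs, T_comm C i (hu i (by simp)) v hv _ (Tw_lt C u hu' s hs)]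

theorem eqv_iff_state (C : Cert k ns np optw T Pm D st O) (C2 : Cert2 k ns T Pm acc ctx)
    (hg : ∀ i < k, opts (g i) = (optw i).map (wsum g))
    (hlt : ∀ i < k, ∀ o ∈ optw i, ∀ j ∈ o, j < k) {G H : Game} {u v : List ℕ}
    (hG : Rel g k G u) (hH : Rel g k H v) :
    Eqv (AA g k) G H ↔ Tw T u 0 = Tw T v 0 := by
  constructor
  · intro h
    by_contra hne
    have key : ∃ w ∈ ctx, Pm.testBit (Tw T w (Tw T u 0)) ≠ Pm.testBit (Tw T w (Tw T v 0)) := by
      have hu := Tw_lt C2 u (rel_lt hG) 0 C2.ns_pos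
      have hv := Tw_lt C2 v (rel_lt hH) 0 C2.ns_pos
      rcases Nat.lt_or_gt_of_ne hne with h1 | h1
      · obtain ⟨w, hw, h2⟩ := C2.hsep _ hv _ h1
        exact ⟨w, hw, h2.symm⟩
      · exact C2.hsep _ hu _ h1
    obtain ⟨w, hw, hne'⟩ := key
    have hwk := C2.hctxk w hw
    have hX : Rel g k (wsum g w) w := rel_wsum w hwk
    have h1 := h _ ⟨w, hX⟩
    rw [outcome C hg hlt _ _ _ le_rfl (Rel.add hG hX),
      outcome C hg hlt _ _ _ le_rfl (Rel.add hH hX), Tw_append, Tw_append,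
      Tw_comm C2 u (rel_lt hG) w hwk 0 C2.ns_pos,
      Tw_comm C2 v (rel_lt hH) w hwk 0 C2.ns_pos] at h1
    exact hne' (Bool.eq_iff_iff.2 h1)
  · rintro h X ⟨w, hX⟩
    rw [outcome C hg hlt _ _ _ le_rfl (Rel.add hG hX),
      outcome C hg hlt _ _ _ le_rfl (Rel.add hH hX), Tw_append, Tw_append,
      Tw_comm C2 u (rel_lt hG) w (rel_lt hX) 0 C2.ns_pos,
      Tw_comm C2 v (rel_lt hH) w (rel_lt hX) 0 C2.ns_pos, h]

theorem card_qt (C : Cert k ns np optw T Pm D st O) (C2 : Cert2 k ns T Pm acc ctx)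
    (hg : ∀ i < k, opts (g i) = (optw i).map (wsum g))
    (hlt : ∀ i < k, ∀ o ∈ optw i, ∀ j ∈ o, j < k) :
    Finite (Qt (AA g k)) ∧ Nat.card (Qt (AA g k)) = ns := by
  classical
  let f : AA g k → Fin ns := fun G =>
    ⟨Tw T G.2.choose 0, Tw_lt C2 _ (rel_lt G.2.choose_spec) 0 C2.ns_pos⟩
  have hf : ∀ G H : AA g k, (sd (AA g k)).r G H ↔ f G = f H := by
    intro G H
    rw [Fin.ext_iff]
    exact eqv_iff_state C C2 hg hlt G.2.choose_spec H.2.choose_spec
  have hsurj : Function.Surjective f := by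
    rintro ⟨s, hs⟩
    obtain ⟨w, hw, h⟩ := C2.hacc s hs
    subst h
    have hX : Rel g k (wsum g w) w := rel_wsum w (C2.hacck w hw)
    refine ⟨⟨wsum g w, ⟨w, hX⟩⟩, ?_⟩
    rw [Fin.ext_iff]
    exact (eqv_iff_state C C2 hg hlt (Exists.choose_spec (⟨w, hX⟩ : ∃ l, Rel g k (wsum g w) l))
      hX).1 (fun _ _ => Iff.rfl)
  let F : Qt (AA g k) → Fin ns := Quotient.lift f (fun G H h => (hf G H).1 h)
  have hF : Function.Bijective F := by
    constructor
    · rintro ⟨G⟩ ⟨H⟩ h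
      exact Quotient.sound ((hf G H).2 h)
    · intro y
      obtain ⟨G, rfl⟩ := hsurj y
      exact ⟨Quotient.mk _ G, rfl⟩
  have e := Equiv.ofBijective F hF
  refine ⟨Finite.of_equiv _ e.symm, ?_⟩
  rw [Nat.card_congr e, Nat.card_eq_fintype_card, Fintype.card_fin]

/-- The word of the `n`-fold sum. -/
def rep (w : List ℕ) : ℕ → List ℕ
  | 0 => []
  | n + 1 => w ++ rep w n

theorem rel_nsum {G : Game} {w : List ℕ} (h : Rel g k G w) : ∀ n, Rel g k (nsum G n) (rep w n) := by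
  intro n
  induction n with
  | zero => exact Rel.zero
  | succ n ih => exact Rel.add h ih

theorem mem_orders (C : Cert k ns np optw T Pm D st O) (C2 : Cert2 k ns T Pm acc ctx)
    (hg : ∀ i < k, opts (g i) = (optw i).map (wsum g))
    (hlt : ∀ i < k, ∀ o ∈ optw i, ∀ j ∈ o, j < k) (w : List ℕ) (hw : ∀ i ∈ w, i < k)
    (m p : ℕ) (hm : 1 ≤ m) (hp : 1 ≤ p) (h : Tw T (rep w (m + p)) 0 = Tw T (rep w m) 0)
    (hl : ∀ q < p, 1 ≤ q → Tw T (rep w (m + q)) 0 ≠ Tw T (rep w m) 0) : ns ∈ Orders p := by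
  have hA : Closed (AA g k) := closed_AA hg hlt
  have hX : Rel g k (wsum g w) w := rel_wsum w hw
  have hXA : wsum g w ∈ AA g k := ⟨w, hX⟩
  refine ⟨AA g k, hA, (card_qt C C2 hg hlt).1, (card_qt C C2 hg hlt).2, wsum g w, hXA, ?_⟩
  letI := mon hA
  have e : ∀ m n, (cl (wsum g w) hXA) ^ m = (cl (wsum g w) hXA) ^ n ↔
      Tw T (rep w m) 0 = Tw T (rep w n) 0 := by
    intro m n
    rw [← cl_nsum hA hXA, ← cl_nsum hA hXA, cl_eq]
    exact eqv_iff_state C C2 hg hlt (rel_nsum hX m) (rel_nsum hX n)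
  rw [hasPeriod_iff hA hXA]
  exact isPer_of hm hp ((e _ _).2 h) (fun q hq hqp h' => hl q hqp hq ((e _ _).1 h'))

end

end Pool.Agent.Work.MP_f00281_mq
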