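import Pool.Agent.Work.MP_f00281_mq.Cert

/-!
# Boolean checks
-/

namespace Pool.Agent.Work.MP_f00281_mq

open Game

/-- The first check. -/
def chkA (k ns np : ℕ) (optT : List (List (List ℕ))) (T : ℕ → ℕ → ℕ) (Pm : ℕ)
    (D : ℕ → ℕ → ℕ) (st O : ℕ → ℕ) : Bool :=
  (List.range np).all fun q =>
    Nat.blt (st q) ns && Nat.blt (O q) (2 ^ ns) &&
    (Pm.testBit (st q) == (!(Nat.beq (O q) 0) && Nat.beq (O q &&& Pm) 0)) &&
    (List.range k).all fun i => Nat.blt (D q i) np && Nat.beq (st (D q i)) (T i (st q)) &&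
      Nat.beq (O (D q i)) (img T i (O q) ns ||| om T (st q) (optT.getD i []))

theorem cert_of {k ns np : ℕ} {optT : List (List (List ℕ))} {T : ℕ → ℕ → ℕ} {Pm : ℕ}
    {D : ℕ → ℕ → ℕ} {st O : ℕ → ℕ} (h : chkA k ns np optT T Pm D st O = true) (hnp : 0 < np)
    (h0 : st 0 = 0) (hO0 : O 0 = 0) :
    Cert k ns np (fun i => optT.getD i []) T Pm D st O := by
  rw [chkA, List.all_eq_true] at h
  have h1 : ∀ q < np, ((st q < ns ∧ O q < 2 ^ ns) ∧
      (Pm.testBit (st q) = (!(Nat.beq (O q) 0) && Nat.beq (O q &&& Pm) 0))) ∧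
      ∀ i < k, (D q i < np ∧ st (D q i) = T i (st q)) ∧
        O (D q i) = img T i (O q) ns ||| om T (st q) (optT.getD i []) := by
    intro q hq
    have h2 := h q (List.mem_range.2 hq)
    simp only [Bool.and_eq_true, List.all_eq_true, List.mem_range, Nat.blt_eq, Nat.beq_eq,
      beq_iff_eq] at h2
    exact h2
  refine ⟨hnp, h0, hO0, fun q hq i hi => ?_, fun q hq => ?_, fun q hq => (h1 q hq).1.1.1,
    fun q hq => (h1 q hq).1.1.2⟩
  · obtain ⟨⟨a, b⟩, c⟩ := (h1 q hq).2 i hi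
    exact ⟨a, b, c⟩
  · rw [(h1 q hq).1.2, Bool.and_eq_true, Nat.beq_eq, Bool.not_eq_true', ← Bool.not_eq_true,
      Nat.beq_eq]

/-- The second check. -/
def chkB (k ns : ℕ) (T : ℕ → ℕ → ℕ) (Pm : ℕ) (acc ctx : List (List ℕ)) : Bool :=
  ((List.range k).all fun i => (List.range ns).all fun s => Nat.blt (T i s) ns &&
    (List.range k).all fun j => Nat.beq (T i (T j s)) (T j (T i s))) &&
  ((List.range ns).all fun s => acc.any fun w => Nat.beq (Tw T w 0) s) &&
  (acc.all fun w => w.all fun i => Nat.blt i k) &&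
  (ctx.all fun w => w.all fun i => Nat.blt i k) &&
  ((List.range ns).all fun s => (List.range s).all fun t => ctx.any fun w =>
    Pm.testBit (Tw T w s) != Pm.testBit (Tw T w t))

theorem cert2_of {k ns : ℕ} {T : ℕ → ℕ → ℕ} {Pm : ℕ} {acc ctx : List (List ℕ)}
    (h : chkB k ns T Pm acc ctx = true) (hns : 0 < ns) : Cert2 k ns T Pm acc ctx := by
  simp only [chkB, Bool.and_eq_true, List.all_eq_true, List.any_eq_true, List.mem_range,
    Nat.blt_eq, Nat.beq_eq, bne_iff_ne] at h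
  obtain ⟨⟨⟨⟨h1, h2⟩, h3⟩, h4⟩, h5⟩ := h
  exact ⟨fun i hi s hs => (h1 i hi s hs).1, fun i hi j hj s hs => (h1 i hi s hs).2 j hj, hns,
    h2, h3, h4, h5⟩

end Pool.Agent.Work.MP_f00281_mq
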