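import Mathlib

/-!
# Misere quotients: definitions
-/

namespace Pool.Agent.Work.MP_f00281_mq

/-- A finite impartial game: a finite tree. `nil` is the game without options, and `cons g G` is
the game `G` with the additional option `g`. -/
inductive Game : Type
  | nil : Game
  | cons (g G : Game) : Game

namespace Game

/-- The options. -/
def opts : Game → List Game
  | nil => []
  | cons g G => g :: opts G

/-- The game with a given list of options. -/
def mk : List Game → Game
  | [] => nil
  | g :: l => cons g (mk l)

theorem opts_mk (l : List Game) : opts (mk l) = l := by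
  induction l with
  | nil => rfl
  | cons g l ih => rw [mk, opts, ih]

/-- The empty game. -/
def zero : Game := nil

theorem sizeOf_pos' (G : Game) : 0 < sizeOf G := by
  cases G with
  | nil => simp
  | cons g G => simp only [cons.sizeOf_spec]; omega

theorem sizeOf_lt {G g : Game} (h : g ∈ opts G) : sizeOf g < sizeOf G := by
  induction G with
  | nil => simp [opts] at h
  | cons a G _ ih =>
    simp only [cons.sizeOf_spec]
    rw [opts, List.mem_cons] at h
    rcases h with rfl | h
    · omega
    · have := ih h
      omega

/-- The disjunctive sum: a move is a move in exactly one of the summands. -/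
def add (G H : Game) : Game :=
  mk ((opts G).attach.map (fun g => add g.1 H) ++ (opts H).attach.map (fun h => add G h.1))
termination_by sizeOf G + sizeOf H
decreasing_by
  · have := sizeOf_lt g.2
    omega
  · have := sizeOf_lt h.2
    omega

/-- Misere `P`-positions: the player who makes the last move loses, so the empty game is not a
`P`-position, and a nonempty game is one if and only if no option is one. -/
def IsP (G : Game) : Prop := opts G ≠ [] ∧ ∀ g : {g // g ∈ opts G}, ¬ IsP g.1
termination_by sizeOf G
decreasing_by
  have := sizeOf_lt g.2
  omega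

/-- The sum of `n` copies. -/
def nsum (G : Game) : ℕ → Game
  | 0 => zero
  | n + 1 => add G (nsum G n)

end Game

open Game

/-- A set of games which contains the empty game and is closed under sums and under passing to
options. -/
structure Closed (A : Set Game) : Prop where
  zero_mem : zero ∈ A
  add_mem : ∀ G ∈ A, ∀ H ∈ A, add G H ∈ A
  opt_mem : ∀ G ∈ A, ∀ g ∈ opts G, g ∈ A

/-- Indistinguishability modulo `A`. -/
def Eqv (A : Set Game) (G H : Game) : Prop := ∀ X ∈ A, IsP (add G X) ↔ IsP (add H X)

/-- The equivalence relation on `A`. -/
def sd (A : Set Game) : Setoid A where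
  r G H := Eqv A G.1 H.1
  iseqv := ⟨fun _ _ _ => Iff.rfl, fun h X hX => (h X hX).symm,
    fun h h' X hX => (h X hX).trans (h' X hX)⟩

/-- The misere quotient of `A` (as a set). -/
def Qt (A : Set Game) : Type := Quotient (sd A)

/-- The class of `G` has period `p`: take the least `m ≥ 1` such that `(m + q) G ≡ m G` for some
`q ≥ 1`; then `p` is the least such `q`. -/
def HasPeriod (A : Set Game) (G : Game) (p : ℕ) : Prop :=
  ∃ m, 1 ≤ m ∧ 1 ≤ p ∧ Eqv A (nsum G (m + p)) (nsum G m) ∧
    (∀ m', 1 ≤ m' → m' < m → ∀ q, 1 ≤ q → ¬ Eqv A (nsum G (m' + q)) (nsum G m')) ∧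
    (∀ q, 1 ≤ q → q < p → ¬ Eqv A (nsum G (m + q)) (nsum G m))

/-- The orders of the finite misere quotients that contain an element of period `p`. -/
def Orders (p : ℕ) : Set ℕ :=
  {n | ∃ A : Set Game, Closed A ∧ Finite (Qt A) ∧ Nat.card (Qt A) = n ∧ ∃ G ∈ A, HasPeriod A G p}

/-- The smallest order of a finite misere quotient that contains an element of period `p`. -/
noncomputable def leastOrder (p : ℕ) : ℕ := sInf (Orders p)

end Pool.Agent.Work.MP_f00281_mq
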