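import Pool.Agent.Work.MP_f00281_mq.Data36
import Pool.Agent.Work.MP_f00281_mq.Data48

/-!
# Misere quotients with elements of period 3, 4 or 6
-/

namespace Pool.Agent.Work.MP_f00281_mq

open Game

theorem orders_odd {p : ℕ} (hodd : Odd p) (h3 : 3 ≤ p) : Orders p = Orders (2 * p) := by
  ext n
  constructor
  · rintro ⟨A, hA, hf, hc, hG⟩
    exact ⟨A, hA, hf, hc, (odd_double hA hodd h3).1 hG⟩
  · rintro ⟨A, hA, hf, hc, hG⟩
    exact ⟨A, hA, hf, hc, (odd_double hA hodd h3).2 hG⟩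

theorem final :
    (∀ A : Set Game, Closed A → ∀ p : ℕ, Odd p → 3 ≤ p →
      ((∃ G ∈ A, HasPeriod A G p) ↔ ∃ G ∈ A, HasPeriod A G (2 * p))) ∧
    Orders 3 = Orders 6 ∧ leastOrder 3 = leastOrder 6 ∧
    48 ∈ Orders 3 ∧ leastOrder 3 ≤ 48 ∧ leastOrder 6 ≤ 48 ∧
    36 ∈ Orders 4 ∧ leastOrder 4 ≤ 36 := by
  have h36 : Orders 3 = Orders 6 := orders_odd (by decide) le_rfl
  have h1 : 48 ∈ Orders 3 := Data48.main
  have h2 : 36 ∈ Orders 4 := Data36.main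
  refine ⟨fun A hA p hodd h3 => odd_double hA hodd h3, h36, by rw [leastOrder, leastOrder, h36],
    h1, Nat.sInf_le h1, ?_, h2, Nat.sInf_le h2⟩
  rw [leastOrder, ← h36]
  exact Nat.sInf_le h1

end Pool.Agent.Work.MP_f00281_mq
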