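import Pool.Agent.Work.MP_f00281_mq.Struct

/-!
# Periods: odd `p` and `2 p`
-/

namespace Pool.Agent.Work.MP_f00281_mq

open Game

section monoid

variable {M : Type*} [CommMonoid M]

/-- The period in a monoid. -/
def IsPer (x : M) (p : ℕ) : Prop :=
  ∃ m, 1 ≤ m ∧ 1 ≤ p ∧ x ^ (m + p) = x ^ m ∧
    (∀ m', 1 ≤ m' → m' < m → ∀ q, 1 ≤ q → ¬ x ^ (m' + q) = x ^ m') ∧
    (∀ q, 1 ≤ q → q < p → ¬ x ^ (m + q) = x ^ m)

theorem pow_mul_per {x : M} {m p : ℕ} (h : x ^ (m + p) = x ^ m) (t : ℕ) :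
    x ^ (m + p * t) = x ^ m := by
  induction t with
  | zero => rw [Nat.mul_zero, Nat.add_zero]
  | succ t ih =>
    rw [Nat.mul_succ, show m + (p * t + p) = (m + p * t) + p by ring, pow_add, ih, ← pow_add, h]

theorem pow_shift {x : M} {m q : ℕ} (h : x ^ (m + q) = x ^ m) {M' : ℕ} (hM : m ≤ M') :
    x ^ (M' + q) = x ^ M' := by
  obtain ⟨d, rfl⟩ := Nat.exists_eq_add_of_le hM
  rw [show m + d + q = (m + q) + d by ring, pow_add, h, ← pow_add]

/-- If `x ^ (m + p) = x ^ m` and `x ^ (m + q)` differs for smaller `q`, all periods are multiples. -/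
theorem dvd_of_least {x : M} {m p : ℕ} (hp : 1 ≤ p) (h : x ^ (m + p) = x ^ m)
    (hl : ∀ q, 1 ≤ q → q < p → ¬ x ^ (m + q) = x ^ m) {m' q : ℕ} (h' : x ^ (m' + q) = x ^ m') :
    p ∣ q := by
  have h1 : x ^ ((m + p * m') + q) = x ^ (m + p * m') :=
    pow_shift h' (by nlinarith)
  rw [pow_mul_per h, show m + p * m' + q = (m + q) + p * m' by ring] at h1
  rw [pow_mul_per (pow_shift h (by omega))] at h1
  have h2 : x ^ (m + q % p) = x ^ m := by
    rw [← h1]
    conv_rhs => rw [← Nat.mod_add_div q p, ← add_assoc]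
    rw [pow_mul_per (pow_shift h (by omega))]
  rcases Nat.eq_zero_or_pos (q % p) with h3 | h3
  · exact Nat.dvd_of_mod_eq_zero h3
  · exact absurd h2 (hl _ h3 (Nat.mod_lt _ hp))

theorem isPer_iff {x : M} {p : ℕ} : IsPer x p ↔
    1 ≤ p ∧ (∃ m, 1 ≤ m ∧ x ^ (m + p) = x ^ m) ∧
      ∀ m' q, 1 ≤ m' → 1 ≤ q → x ^ (m' + q) = x ^ m' → p ∣ q := by
  constructor
  · rintro ⟨m, hm, hp, h, _, hl⟩
    exact ⟨hp, ⟨m, hm, h⟩, fun m' q _ _ h' => dvd_of_least hp h hl h'⟩
  · rintro ⟨hp, ⟨m0, hm0, h0⟩, hd⟩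
    classical
    have hex : ∃ m, 1 ≤ m ∧ ∃ q, 1 ≤ q ∧ x ^ (m + q) = x ^ m := ⟨m0, hm0, p, hp, h0⟩
    obtain ⟨hm1, q, hq, hmq⟩ := Nat.find_spec hex
    refine ⟨Nat.find hex, hm1, hp, ?_, ?_, ?_⟩
    · have h1 : x ^ ((Nat.find hex + q * m0) + p) = x ^ (Nat.find hex + q * m0) :=
        pow_shift h0 (by nlinarith)
      rw [pow_mul_per hmq, show Nat.find hex + q * m0 + p = (Nat.find hex + p) + q * m0 by ring,
        pow_mul_per (pow_shift hmq (by omega))] at h1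
      exact h1
    · intro m' hm' hlt q' hq' h'
      exact Nat.find_min hex hlt ⟨hm', q', hq', h'⟩
    · intro q' hq' hlt h'
      have := Nat.le_of_dvd (by omega) (hd _ q' hm1 hq' h')
      omega

theorem isPer_of {x : M} {m p : ℕ} (hm : 1 ≤ m) (hp : 1 ≤ p) (h : x ^ (m + p) = x ^ m)
    (hl : ∀ q, 1 ≤ q → q < p → ¬ x ^ (m + q) = x ^ m) : IsPer x p :=
  isPer_iff.2 ⟨hp, ⟨m, hm, h⟩, fun _ _ _ _ h' => dvd_of_least hp h hl h'⟩

theorem isPer_two_mul {x a : M} {p : ℕ} (hodd : Odd p) (ha : a * a = 1) (hfree : ∀ y, a * y ≠ y)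
    (hx : IsPer x p) : IsPer (a * x) (2 * p) := by
  rw [isPer_iff] at hx ⊢
  obtain ⟨hp, ⟨m, hm, h⟩, hd⟩ := hx
  have ha2 : ∀ n, a ^ (2 * n) = 1 := fun n => by rw [pow_mul, sq, ha, one_pow]
  refine ⟨by omega, ⟨m, hm, ?_⟩, ?_⟩
  · rw [mul_pow, mul_pow, pow_add a, ha2, mul_one]
    congr 1
    rw [mul_comm 2 p]
    exact pow_mul_per h 2
  · intro m' q hm' hq h'
    have h1 : x ^ (2 * m' + 2 * q) = x ^ (2 * m') := by
      have h2 : ((a * x) ^ (m' + q)) ^ 2 = ((a * x) ^ m') ^ 2 := by rw [h']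
      rw [← pow_mul, ← pow_mul, mul_pow, mul_pow, mul_comm (m' + q) 2, mul_comm m' 2, ha2, ha2,
        one_mul, one_mul] at h2
      rw [← mul_add]
      exact h2
    have h3 : p ∣ 2 * q := hd _ _ (by omega) (by omega) h1
    have h4 : p ∣ q := (Nat.Coprime.dvd_of_dvd_mul_left (Nat.Coprime.symm (by
      rw [Nat.coprime_two_left]; exact hodd)) h3)
    obtain ⟨k, rfl⟩ := h4
    rcases Nat.even_or_odd k with ⟨j, hj⟩ | hk
    · exact ⟨j, by subst hj; ring⟩
    · exfalso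
      have h5 : (a * x) ^ ((m + m') + p * k) = (a * x) ^ (m + m') := pow_shift h' (by omega)
      have h6 : x ^ ((m + m') + p * k) = x ^ (m + m') := pow_mul_per (pow_shift h (by omega)) k
      rw [mul_pow, mul_pow, h6, pow_add a] at h5
      have h7 : a ^ (p * k) = a := by
        obtain ⟨j, hj⟩ := hodd.mul hk
        rw [hj, pow_succ, ha2, one_mul]
      rw [h7, mul_comm _ a, mul_assoc] at h5
      exact hfree _ h5

theorem isPer_sq {x : M} {p : ℕ} (hx : IsPer x (2 * p)) : IsPer (x ^ 2) p := by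
  rw [isPer_iff] at hx ⊢
  obtain ⟨hp, ⟨m, hm, h⟩, hd⟩ := hx
  refine ⟨by omega, ⟨m, hm, ?_⟩, ?_⟩
  · rw [← pow_mul, ← pow_mul, mul_add]
    exact pow_shift h (by omega)
  · intro m' q hm' hq h'
    rw [← pow_mul, ← pow_mul, mul_add] at h'
    exact Nat.dvd_of_mul_dvd_mul_left (by norm_num) (hd _ _ (by omega) (by omega) h')

end monoid

theorem hasPeriod_iff {A : Set Game} (hA : Closed A) {G : Game} (hG : G ∈ A) (p : ℕ) :
    HasPeriod A G p ↔ @IsPer _ (mon hA) (cl G hG) p := by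
  letI := mon hA
  have e : ∀ m n, Eqv A (nsum G m) (nsum G n) ↔ (cl G hG) ^ m = (cl G hG) ^ n := by
    intro m n
    rw [← cl_nsum hA hG, ← cl_nsum hA hG, cl_eq]
  unfold HasPeriod IsPer
  simp only [e]

/-- A position whose options are all empty games. -/
def Star (S : Game) : Prop := opts S ≠ [] ∧ ∀ g ∈ opts S, g = zero

theorem eq_zero_of_opts {G : Game} (h : opts G = []) : G = zero := by
  cases G with
  | nil => rfl
  | cons g G => simp [opts] at h

theorem exists_star {A : Set Game} (hA : Closed A) : ∀ (n : ℕ) (G : Game), sizeOf G ≤ n → G ∈ A →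
    opts G ≠ [] → ∃ S ∈ A, Star S := by
  intro n
  induction n with
  | zero =>
    intro G h
    exfalso
    have := sizeOf_pos' G
    omega
  | succ n ih =>
    intro G h hG hne
    by_cases hall : ∀ g ∈ opts G, opts g = []
    · exact ⟨G, hG, hne, fun g hg => eq_zero_of_opts (hall g hg)⟩
    · push Not at hall
      obtain ⟨g, hg, hgne⟩ := hall
      have := sizeOf_lt hg
      exact ih g (by omega) (hA.opt_mem G hG g hg) hgne

theorem opt_star_cons {S : Game} (hS : Star S) {X w : Multiset Game} :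
    Opt (S ::ₘ X) w ↔ w = zero ::ₘ X ∨ ∃ u', Opt X u' ∧ w = S ::ₘ u' := by
  rw [opt_cons]
  constructor
  · rintro (⟨g, hg, rfl⟩ | h)
    · rw [hS.2 g hg]
      exact Or.inl rfl
    · exact Or.inr h
  · rintro (rfl | h)
    · obtain ⟨g, hg⟩ := opts_ne.1 hS.1
      exact Or.inl ⟨g, hg, by rw [hS.2 g hg]⟩
    · exact Or.inr h

theorem star_star {S : Game} (hS : Star S) : ∀ (n : ℕ) (X : Multiset Game), sz X ≤ n →
    (PM (S ::ₘ S ::ₘ X) ↔ PM X) := by
  intro n
  induction n using Nat.strong_induction_on with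
  | _ n ih =>
    intro X hn
    have hopt : Opt (S ::ₘ S ::ₘ X) (zero ::ₘ S ::ₘ X) := (opt_star_cons hS).2 (Or.inl rfl)
    have hopt' : Opt (S ::ₘ X) (zero ::ₘ X) := (opt_star_cons hS).2 (Or.inl rfl)
    constructor
    · intro h
      rw [pm_iff] at h
      have h1 : ¬ PM (S ::ₘ X) := by
        have := h.2 _ hopt
        rwa [pm_zero'] at this
      rw [pm_iff]
      refine ⟨?_, fun w hw hP => ?_⟩
      · by_contra hno
        apply h1
        rw [pm_iff]
        refine ⟨⟨_, hopt'⟩, fun w hw => ?_⟩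
        rcases (opt_star_cons hS).1 hw with rfl | ⟨u', hu', _⟩
        · rw [pm_zero', pm_iff]
          rintro ⟨h2, _⟩
          exact hno h2
        · exact absurd ⟨u', hu'⟩ hno
      · have h3 : PM (S ::ₘ S ::ₘ w) := (ih (sz w) (lt_of_lt_of_le (sz_lt hw) hn) w le_rfl).2 hP
        exact h.2 _ ((opt_star_cons hS).2 (Or.inr ⟨S ::ₘ w, (opt_star_cons hS).2
          (Or.inr ⟨w, hw, rfl⟩), rfl⟩)) h3
    · intro h
      rw [pm_iff]
      refine ⟨⟨_, hopt⟩, fun w hw hP => ?_⟩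
      have hone : ¬ PM (zero ::ₘ S ::ₘ X) := by
        rw [pm_zero', pm_iff]
        rintro ⟨_, h2⟩
        exact h2 _ hopt' ((pm_zero' X).2 h)
      rcases (opt_star_cons hS).1 hw with rfl | ⟨u', hu', rfl⟩
      · exact hone hP
      · rcases (opt_star_cons hS).1 hu' with rfl | ⟨u'', hu'', rfl⟩
        · rw [Multiset.cons_swap] at hP
          exact hone hP
        · have h4 : PM u'' := (ih (sz u'') (lt_of_lt_of_le (sz_lt hu'') hn) u'' le_rfl).1 hP
          rw [pm_iff] at h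
          exact h.2 _ hu'' h4

theorem exists_partner {A : Set Game} (hA : Closed A) {S : Game} (hS : Star S) (hSA : S ∈ A)
    {Y : Game} (hY : Y ∈ A) : ∃ X ∈ A, PM (Y ::ₘ {X}) := by
  by_cases h : PM (Y ::ₘ {Y})
  · exact ⟨Y, hY, h⟩
  by_cases h0 : opts Y = []
  · rw [eq_zero_of_opts h0]
    refine ⟨S, hSA, ?_⟩
    rw [pm_zero', ← isP_pm, isP_iff]
    refine ⟨hS.1, fun g hg => ?_⟩
    rw [hS.2 g hg, isP_iff]
    rintro ⟨h1, _⟩
    exact h1 rfl
  · obtain ⟨y0, hy0⟩ := opts_ne.1 h0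
    rw [pm_iff] at h
    push Not at h
    obtain ⟨w, hw, hP⟩ := h ⟨_, opt_cons.2 (Or.inl ⟨y0, hy0, rfl⟩)⟩
    rcases opt_cons.1 hw with ⟨g, hg, rfl⟩ | ⟨u', hu', rfl⟩
    · refine ⟨g, hA.opt_mem Y hY g hg, ?_⟩
      rw [show (Y ::ₘ {g} : Multiset Game) = g ::ₘ {Y} from Multiset.cons_swap _ _ _]
      exact hP
    · rw [← Multiset.cons_zero, opt_cons] at hu'
      rcases hu' with ⟨g, hg, rfl⟩ | ⟨u'', ⟨G', c, g, hh, _, _⟩, _⟩
      · exact ⟨g, hA.opt_mem Y hY g hg, hP⟩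
      · exact absurd hh.symm Multiset.cons_ne_zero

theorem star_free {A : Set Game} (hA : Closed A) {S : Game} (hS : Star S) (hSA : S ∈ A)
    {Y : Game} (hY : Y ∈ A) : ¬ Eqv A (add S Y) Y := by
  intro h
  rw [eqv_iff] at h
  obtain ⟨X, hX, hP⟩ := exists_partner hA hS hSA hY
  have h1 := (h X hX).2 hP
  rw [pm_add', pm_iff] at h1
  exact h1.2 _ ((opt_star_cons hS).2 (Or.inl rfl)) ((pm_zero' _).2 hP)

theorem period_trivial {A : Set Game} (h : ∀ G ∈ A, opts G = []) {G : Game} (hG : G ∈ A)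
    (hA : Closed A) {p : ℕ} (hp : HasPeriod A G p) : p = 1 := by
  obtain ⟨m, hm, hp1, _, _, hl⟩ := hp
  by_contra hne
  refine hl 1 le_rfl (by omega) ?_
  have e1 := eq_zero_of_opts (h _ (nsum_mem hA hG (m + 1)))
  have e2 := eq_zero_of_opts (h _ (nsum_mem hA hG m))
  rw [e1, e2]
  exact fun X _ => Iff.rfl

/-- For odd `p ≥ 3` the quotients with an element of period `p` are those with an element of
period `2 p`. -/
theorem odd_double {A : Set Game} (hA : Closed A) {p : ℕ} (hodd : Odd p) (h3 : 3 ≤ p) :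
    (∃ G ∈ A, HasPeriod A G p) ↔ (∃ G ∈ A, HasPeriod A G (2 * p)) := by
  constructor
  · rintro ⟨G, hG, hper⟩
    by_cases htriv : ∀ G ∈ A, opts G = []
    · have := period_trivial htriv hG hA hper
      omega
    · push Not at htriv
      obtain ⟨G1, hG1, hne⟩ := htriv
      obtain ⟨S, hSA, hS⟩ := exists_star hA _ G1 le_rfl hG1 hne
      refine ⟨add S G, hA.add_mem _ hSA _ hG, ?_⟩
      letI := mon hA
      rw [hasPeriod_iff hA hG] at hper
      rw [hasPeriod_iff hA (hA.add_mem _ hSA _ hG)]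
      have hmul : cl (add S G) (hA.add_mem _ hSA _ hG) = cl S hSA * cl G hG := rfl
      rw [hmul]
      refine isPer_two_mul hodd ?_ ?_ hper
      · show cl (add S S) (hA.add_mem _ hSA _ hSA) = cl zero hA.zero_mem
        rw [cl_eq, eqv_iff]
        intro X _
        rw [pm_add', pm_zero', star_star hS _ _ le_rfl]
      · rintro ⟨Y⟩ hY
        exact star_free hA hS hSA Y.2 (Quotient.exact hY)
  · rintro ⟨G, hG, hper⟩
    letI := mon hA
    rw [hasPeriod_iff hA hG] at hper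
    refine ⟨nsum G 2, nsum_mem hA hG 2, ?_⟩
    rw [hasPeriod_iff hA (nsum_mem hA hG 2), cl_nsum hA hG 2]
    exact isPer_sq hper

end Pool.Agent.Work.MP_f00281_mq
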