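import Pool.Agent.Work.MP_f00281_mq.Defs

/-!
# Misere quotients: the monoid and the element of order two
-/

namespace Pool.Agent.Work.MP_f00281_mq

open Game

theorem mem_opts_add {G H K : Game} :
    K ∈ opts (add G H) ↔ (∃ g ∈ opts G, K = add g H) ∨ (∃ h ∈ opts H, K = add G h) := by
  rw [add]
  simp only [opts_mk, List.mem_append, List.mem_map, List.mem_attach, true_and, Subtype.exists]
  constructor
  · rintro (⟨g, hg, rfl⟩ | ⟨h, hh, rfl⟩)
    · exact Or.inl ⟨g, hg, rfl⟩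
    · exact Or.inr ⟨h, hh, rfl⟩
  · rintro (⟨g, hg, rfl⟩ | ⟨h, hh, rfl⟩)
    · exact Or.inl ⟨g, hg, rfl⟩
    · exact Or.inr ⟨h, hh, rfl⟩

theorem isP_iff {G : Game} : IsP G ↔ opts G ≠ [] ∧ ∀ g ∈ opts G, ¬ IsP g := by
  rw [IsP]
  simp only [Subtype.forall]

theorem opts_ne {G : Game} : opts G ≠ [] ↔ ∃ g, g ∈ opts G := by
  rw [ne_eq, List.eq_nil_iff_forall_not_mem]
  push Not
  rfl

theorem isP_iff' {G : Game} : IsP G ↔ (∃ g, g ∈ opts G) ∧ ∀ g ∈ opts G, ¬ IsP g := by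
  rw [isP_iff, opts_ne]

/-- Options of a multiset of games. -/
def Opt (v w : Multiset Game) : Prop := ∃ G u g, v = G ::ₘ u ∧ g ∈ opts G ∧ w = g ::ₘ u

/-- The size. -/
noncomputable def sz (v : Multiset Game) : ℕ := (v.map sizeOf).sum

theorem sz_lt {v w : Multiset Game} (h : Opt v w) : sz w < sz v := by
  obtain ⟨G, u, g, rfl, hg, rfl⟩ := h
  have := sizeOf_lt hg
  simp only [sz, Multiset.map_cons, Multiset.sum_cons]
  omega

theorem opt_cons {G : Game} {u w : Multiset Game} :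
    Opt (G ::ₘ u) w ↔ (∃ g ∈ opts G, w = g ::ₘ u) ∨ (∃ u', Opt u u' ∧ w = G ::ₘ u') := by
  constructor
  · rintro ⟨G', u', g, h, hg, rfl⟩
    rw [Multiset.cons_eq_cons] at h
    rcases h with ⟨rfl, rfl⟩ | ⟨_, c, rfl, rfl⟩
    · exact Or.inl ⟨g, hg, rfl⟩
    · refine Or.inr ⟨g ::ₘ c, ⟨G', c, g, rfl, hg, rfl⟩, ?_⟩
      rw [Multiset.cons_swap]
  · rintro (⟨g, hg, rfl⟩ | ⟨u', ⟨G', c, g, rfl, hg, rfl⟩, rfl⟩)
    · exact ⟨G, u, g, rfl, hg, rfl⟩
    · refine ⟨G', G ::ₘ c, g, Multiset.cons_swap _ _ _, hg, Multiset.cons_swap _ _ _⟩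

/-- `P`-positions for multisets. -/
def PM (v : Multiset Game) : Prop :=
  (∃ w, Opt v w) ∧ ∀ w : {w // Opt v w}, ¬ PM w.1
termination_by sz v
decreasing_by exact sz_lt w.2

theorem pm_iff {v : Multiset Game} : PM v ↔ (∃ w, Opt v w) ∧ ∀ w, Opt v w → ¬ PM w := by
  rw [PM]
  simp only [Subtype.forall]

theorem pm_congr {v v' : Multiset Game} (h1 : ∀ w, Opt v w → ∃ w', Opt v' w' ∧ (PM w ↔ PM w'))
    (h2 : ∀ w', Opt v' w' → ∃ w, Opt v w ∧ (PM w ↔ PM w')) : PM v ↔ PM v' := by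
  rw [pm_iff, pm_iff (v := v')]
  constructor
  · rintro ⟨⟨w, hw⟩, h⟩
    refine ⟨?_, fun w' hw' => ?_⟩
    · obtain ⟨w', hw', _⟩ := h1 w hw
      exact ⟨w', hw'⟩
    · obtain ⟨w, hw, he⟩ := h2 w' hw'
      rw [← he]
      exact h w hw
  · rintro ⟨⟨w', hw'⟩, h⟩
    refine ⟨?_, fun w hw => ?_⟩
    · obtain ⟨w, hw, _⟩ := h2 w' hw'
      exact ⟨w, hw⟩
    · obtain ⟨w', hw', he⟩ := h1 w hw
      rw [he]
      exact h w' hw'

theorem pm_single : ∀ (n : ℕ) (G : Game), sizeOf G ≤ n → (IsP G ↔ PM {G}) := by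
  intro n
  induction n with
  | zero =>
    intro G h
    exfalso
    have := sizeOf_pos' G
    omega
  | succ n ih =>
    intro G h
    rw [isP_iff', pm_iff]
    have key : ∀ w, Opt {G} w ↔ ∃ g ∈ opts G, w = {g} := by
      intro w
      rw [← Multiset.cons_zero, opt_cons]
      constructor
      · rintro (⟨g, hg, rfl⟩ | ⟨u', ⟨G', c, g, hh, _, _⟩, _⟩)
        · exact ⟨g, hg, rfl⟩
        · exact absurd hh.symm (Multiset.cons_ne_zero)
      · rintro ⟨g, hg, rfl⟩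
        exact Or.inl ⟨g, hg, rfl⟩
    constructor
    · rintro ⟨⟨g, hg⟩, h2⟩
      refine ⟨⟨{g}, (key _).2 ⟨g, hg, rfl⟩⟩, fun w hw => ?_⟩
      obtain ⟨g', hg', rfl⟩ := (key _).1 hw
      have := sizeOf_lt hg'
      rw [← ih g' (by omega)]
      exact h2 g' hg'
    · rintro ⟨⟨w, hw⟩, h2⟩
      obtain ⟨g, hg, rfl⟩ := (key _).1 hw
      refine ⟨⟨g, hg⟩, fun g' hg' => ?_⟩
      have := sizeOf_lt hg'
      rw [ih g' (by omega)]
      exact h2 _ ((key _).2 ⟨g', hg', rfl⟩)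

theorem pm_add : ∀ (n : ℕ) (G H : Game) (X : Multiset Game), sizeOf G + sizeOf H + sz X ≤ n →
    (PM (add G H ::ₘ X) ↔ PM (G ::ₘ H ::ₘ X)) := by
  intro n
  induction n with
  | zero =>
    intro G H X h
    exfalso
    have := sizeOf_pos' G
    omega
  | succ n ih =>
    intro G H X h
    apply pm_congr
    · intro w hw
      rcases opt_cons.1 hw with ⟨k, hk, rfl⟩ | ⟨u', hu', rfl⟩
      · rcases mem_opts_add.1 hk with ⟨g, hg, rfl⟩ | ⟨h', hh', rfl⟩
        · have := sizeOf_lt hg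
          exact ⟨g ::ₘ H ::ₘ X, opt_cons.2 (Or.inl ⟨g, hg, rfl⟩), ih g H X (by omega)⟩
        · have := sizeOf_lt hh'
          exact ⟨G ::ₘ h' ::ₘ X, opt_cons.2 (Or.inr ⟨h' ::ₘ X, opt_cons.2 (Or.inl ⟨h', hh', rfl⟩),
            rfl⟩), ih G h' X (by omega)⟩
      · have := sz_lt hu'
        exact ⟨G ::ₘ H ::ₘ u', opt_cons.2 (Or.inr ⟨H ::ₘ u', opt_cons.2 (Or.inr ⟨u', hu', rfl⟩),
          rfl⟩), ih G H u' (by omega)⟩
    · intro w hw
      rcases opt_cons.1 hw with ⟨g, hg, rfl⟩ | ⟨u', hu', rfl⟩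
      · have := sizeOf_lt hg
        exact ⟨add g H ::ₘ X, opt_cons.2 (Or.inl ⟨add g H, mem_opts_add.2 (Or.inl ⟨g, hg, rfl⟩),
          rfl⟩), ih g H X (by omega)⟩
      · rcases opt_cons.1 hu' with ⟨h', hh', rfl⟩ | ⟨u'', hu'', rfl⟩
        · have := sizeOf_lt hh'
          exact ⟨add G h' ::ₘ X, opt_cons.2 (Or.inl ⟨add G h', mem_opts_add.2
            (Or.inr ⟨h', hh', rfl⟩), rfl⟩), ih G h' X (by omega)⟩
        · have := sz_lt hu''
          exact ⟨add G H ::ₘ u'', opt_cons.2 (Or.inr ⟨u'', hu'', rfl⟩), ih G H u'' (by omega)⟩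

theorem pm_add' (G H : Game) (X : Multiset Game) :
    PM (add G H ::ₘ X) ↔ PM (G ::ₘ H ::ₘ X) := pm_add _ G H X le_rfl

theorem isP_pm (G : Game) : IsP G ↔ PM {G} := pm_single _ G le_rfl

theorem isP_add (G H : Game) : IsP (add G H) ↔ PM (G ::ₘ {H}) := by
  rw [isP_pm, ← Multiset.cons_zero, pm_add']
  rfl

theorem pm_zero_cons : ∀ (n : ℕ) (X : Multiset Game), sz X ≤ n → (PM (zero ::ₘ X) ↔ PM X) := by
  intro n
  induction n with
  | zero =>
    intro X h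
    have h0 : ∀ w, ¬ Opt X w := fun w hw => by
      have := sz_lt hw
      omega
    have h1 : ∀ w, ¬ Opt (zero ::ₘ X) w := by
      intro w hw
      rcases opt_cons.1 hw with ⟨g, hg, _⟩ | ⟨u', hu', _⟩
      · simp [zero, opts] at hg
      · exact h0 _ hu'
    rw [pm_iff, pm_iff (v := X)]
    constructor
    · rintro ⟨⟨w, hw⟩, _⟩
      exact absurd hw (h1 w)
    · rintro ⟨⟨w, hw⟩, _⟩
      exact absurd hw (h0 w)
  | succ n ih =>
    intro X h
    apply pm_congr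
    · intro w hw
      rcases opt_cons.1 hw with ⟨g, hg, _⟩ | ⟨u', hu', rfl⟩
      · simp [zero, opts] at hg
      · have := sz_lt hu'
        exact ⟨u', hu', ih u' (by omega)⟩
    · intro w hw
      have := sz_lt hw
      exact ⟨zero ::ₘ w, opt_cons.2 (Or.inr ⟨w, hw, rfl⟩), ih w (by omega)⟩

theorem pm_zero' (X : Multiset Game) : PM (zero ::ₘ X) ↔ PM X := pm_zero_cons _ X le_rfl

theorem eqv_iff {A : Set Game} {G H : Game} :
    Eqv A G H ↔ ∀ X ∈ A, PM (G ::ₘ {X}) ↔ PM (H ::ₘ {X}) := by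
  simp only [Eqv, isP_add]

theorem eqv_add_left {A : Set Game} (hA : Closed A) {G G' H : Game} (h : Eqv A G G')
    (hH : H ∈ A) : Eqv A (add G H) (add G' H) := by
  rw [eqv_iff] at h ⊢
  intro X hX
  have h1 := h (add H X) (hA.add_mem H hH X hX)
  have e : ∀ K : Game, (PM (K ::ₘ {add H X}) ↔ PM (add K H ::ₘ {X})) := by
    intro K
    rw [pm_add', show (K ::ₘ {add H X} : Multiset Game) = add H X ::ₘ {K} from
      Multiset.cons_swap _ _ _, pm_add']
    rw [show (H ::ₘ X ::ₘ {K} : Multiset Game) = K ::ₘ H ::ₘ {X} from ?_]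
    rw [show (X ::ₘ {K} : Multiset Game) = K ::ₘ {X} from Multiset.cons_swap _ _ _,
      Multiset.cons_swap]
  rw [← e, ← e]
  exact h1

theorem eqv_comm (A : Set Game) (G H : Game) : Eqv A (add G H) (add H G) := by
  rw [eqv_iff]
  intro X _
  rw [pm_add', pm_add', Multiset.cons_swap]

theorem eqv_assoc (A : Set Game) (G H K : Game) :
    Eqv A (add (add G H) K) (add G (add H K)) := by
  rw [eqv_iff]
  intro X _
  rw [pm_add', pm_add', pm_add', Multiset.cons_swap G (add H K), pm_add']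
  rw [show (H ::ₘ K ::ₘ G ::ₘ {X} : Multiset Game) = G ::ₘ H ::ₘ K ::ₘ {X} from ?_]
  rw [Multiset.cons_swap K G, Multiset.cons_swap H G]

theorem eqv_zero (A : Set Game) (G : Game) : Eqv A (add zero G) G := by
  rw [eqv_iff]
  intro X _
  rw [pm_add', pm_zero']

/-- The monoid. -/
@[reducible] def mon {A : Set Game} (hA : Closed A) : CommMonoid (Qt A) where
  mul := Quotient.map₂ (fun G H => ⟨add G.1 H.1, hA.add_mem _ G.2 _ H.2⟩) (by
    intro G G' h H H' h'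
    show Eqv A (add G.1 H.1) (add G'.1 H'.1)
    intro X hX
    rw [eqv_add_left hA (show Eqv A G.1 G'.1 from h) H.2 X hX, eqv_comm A _ _ X hX,
      eqv_add_left hA (show Eqv A H.1 H'.1 from h') G'.2 X hX, eqv_comm A _ _ X hX])
  one := Quotient.mk _ ⟨zero, hA.zero_mem⟩
  mul_assoc := by
    rintro ⟨G⟩ ⟨H⟩ ⟨K⟩
    exact Quotient.sound (eqv_assoc A _ _ _)
  mul_comm := by
    rintro ⟨G⟩ ⟨H⟩
    exact Quotient.sound (eqv_comm A _ _)
  one_mul := by
    rintro ⟨G⟩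
    exact Quotient.sound (eqv_zero A _)
  mul_one := by
    rintro ⟨G⟩
    exact Quotient.sound (fun X hX => (eqv_comm A _ _ X hX).trans (eqv_zero A _ X hX))

theorem nsum_mem {A : Set Game} (hA : Closed A) {G : Game} (hG : G ∈ A) :
    ∀ n, nsum G n ∈ A := by
  intro n
  induction n with
  | zero => exact hA.zero_mem
  | succ n ih => exact hA.add_mem _ hG _ ih

/-- The class. -/
def cl {A : Set Game} (G : Game) (hG : G ∈ A) : Qt A := Quotient.mk (sd A) ⟨G, hG⟩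

theorem cl_eq {A : Set Game} {G H : Game} (hG : G ∈ A) (hH : H ∈ A) :
    cl G hG = cl H hH ↔ Eqv A G H := by
  constructor
  · intro h
    exact Quotient.exact h
  · intro h
    exact Quotient.sound h

theorem cl_nsum {A : Set Game} (hA : Closed A) {G : Game} (hG : G ∈ A) (n : ℕ) :
    letI := mon hA
    cl (nsum G n) (nsum_mem hA hG n) = (cl G hG) ^ n := by
  letI := mon hA
  induction n with
  | zero => rw [pow_zero]; rfl
  | succ n ih =>
    rw [pow_succ', ← ih]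
    rfl

end Pool.Agent.Work.MP_f00281_mq
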